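import Pool.Agent.H30.CollatzC

/-!
# Many integers with a long total stopping time under the 3x+1 map

Write `h = (1/2) log (4/3)` and `μ = 1 / h = 6.952...`.  The main theorem: for every `α` with
`0 ≤ α ≤ h / log 3`, every `c < C(α) = (α (1 + μ log 3) + μ log 2) / ((1 + α) log 2)` and every
`η < 1 / (1 + α)`, all sufficiently large `x` satisfy
`#{1 ≤ n ≤ x : σ∞(n) ≥ c log n} ≥ x ^ η`.  At the right end `α = h / log 3` one has
`C(α) = 7.5899...` and `1 / (1 + α) = 0.8842...`; for small `α > 0` one has `C(α) > μ`.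

The starting values are `n = 2 ^ (a w) q - 1` with `q < 2 ^ (b w)`: the first `a w` steps are odd,
the next `b w` steps are those of a typical number (the residues of the starting value modulo
`2 ^ (b w)` are equidistributed), and from then on one looks at the first passages below the levels
`L ^ w (θ ^ w / 2) ^ i`, where few `q` can arrive at a residue class modulo `2 ^ w` from which the
descent is faster than `θ` per step.
-/

set_option autoImplicit false

open Pool.Agent.H30.Collatz Finset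

namespace Pool.Agent.Results.MP_e701bf_nt.LongStoppingTimes

/-! ### Bad residues -/

/-- Residues modulo `2 ^ w` from which an orbit descends below `θ ^ w` times its start within `w`
steps. -/
noncomputable def BadR (θ : ℝ) (w : ℕ) : Finset ℕ := by
  classical exact (Finset.range (2 ^ w)).filter (fun r => ∃ u ≤ w, (3 : ℝ) ^ od u r < θ ^ w * 2 ^ u)

lemma mem_BadR {θ : ℝ} {w r : ℕ} :
    r ∈ BadR θ w ↔ r < 2 ^ w ∧ ∃ u ≤ w, (3 : ℝ) ^ od u r < θ ^ w * 2 ^ u := by
  classical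
  simp [BadR]

lemma exists_tilt (θ : ℝ) (h0 : 0 < θ) (h1 : (2 * θ) ^ 2 < 3) : ∃ t : ℝ, 0 < t ∧
    Real.exp (t * Real.log (2 * θ)) * ((1 + Real.exp (-(t * Real.log 3))) / 2) < 1 := by
  set L := Real.log 3 with hL
  set δ : ℝ := L / 2 - Real.log (2 * θ) with hδ
  have hLpos : 0 < L := Real.log_pos (by norm_num)
  have hδpos : 0 < δ := by
    have : 2 * Real.log (2 * θ) < Real.log 3 := by
      have e : 2 * Real.log (2 * θ) = Real.log ((2 * θ) ^ 2) := by
        rw [Real.log_pow]; norm_num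
      rw [e]
      exact Real.log_lt_log (by positivity) h1
    rw [hδ, hL]; linarith
  refine ⟨4 * δ / L ^ 2, by positivity, ?_⟩
  set t : ℝ := 4 * δ / L ^ 2 with ht
  have htpos : 0 < t := by positivity
  have h1 : (1 + Real.exp (-(t * L))) / 2 = Real.exp (-(t * L / 2)) * Real.cosh (t * L / 2) := by
    rw [Real.cosh_eq]
    have : Real.exp (-(t * L / 2)) * ((Real.exp (t * L / 2) + Real.exp (-(t * L / 2))) / 2)
        = (Real.exp (-(t * L / 2)) * Real.exp (t * L / 2)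
          + Real.exp (-(t * L / 2)) * Real.exp (-(t * L / 2))) / 2 := by ring
    rw [this, ← Real.exp_add, ← Real.exp_add]
    have e1 : -(t * L / 2) + t * L / 2 = 0 := by ring
    have e2 : -(t * L / 2) + -(t * L / 2) = -(t * L) := by ring
    rw [e1, e2, Real.exp_zero]
  rw [h1]
  have h2 : Real.cosh (t * L / 2) ≤ Real.exp ((t * L / 2) ^ 2 / 2) := Real.cosh_le_exp_half_sq _
  calc Real.exp (t * Real.log (2 * θ)) * (Real.exp (-(t * L / 2)) * Real.cosh (t * L / 2))
      ≤ Real.exp (t * Real.log (2 * θ)) * (Real.exp (-(t * L / 2)) * Real.exp ((t * L / 2) ^ 2 / 2)) := by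
        gcongr
    _ = Real.exp (t * Real.log (2 * θ) + (-(t * L / 2) + (t * L / 2) ^ 2 / 2)) := by
        rw [← Real.exp_add, ← Real.exp_add]
    _ < 1 := by
        rw [Real.exp_lt_one_iff]
        have e : t * Real.log (2 * θ) + (-(t * L / 2) + (t * L / 2) ^ 2 / 2)
            = -(t * δ) / 2 := by
          have hLne : L ≠ 0 := hLpos.ne'
          have : Real.log (2 * θ) = L / 2 - δ := by rw [hδ]; ring
          rw [this]
          have h3 : t * L ^ 2 = 4 * δ := by rw [ht]; field_simp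
          have : (t * L / 2) ^ 2 / 2 = t * (t * L ^ 2) / 8 := by ring
          rw [this, h3]; ring
        rw [e]
        have : 0 < t * δ := by positivity
        linarith

lemma badR_card (θ : ℝ) (h0 : 0 < θ) (h1 : (2 * θ) ^ 2 < 3) :
    ∃ ρ : ℝ, 0 < ρ ∧ ρ < 1 ∧ ∀ w : ℕ, ((BadR θ w).card : ℝ) ≤ (w + 1) * ρ ^ w * 2 ^ w := by
  obtain ⟨t, ht, hlt⟩ := exists_tilt θ h0 h1
  set x : ℝ := Real.exp (-(t * Real.log 3)) with hx
  set a : ℝ := Real.exp (t * Real.log 2) with ha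
  set R : ℝ := Real.exp (t * Real.log θ) with hR
  have hxpos : 0 < x := Real.exp_pos _
  have hapos : 0 < a := Real.exp_pos _
  have hRpos : 0 < R := Real.exp_pos _
  have hRa : R * a = Real.exp (t * Real.log (2 * θ)) := by
    rw [hR, ha, ← Real.exp_add, ← mul_add, ← Real.log_mul h0.ne' (by norm_num)]
    congr 3
    ring
  have hρ : R * (a * (1 + x) / 2) = Real.exp (t * Real.log (2 * θ)) * ((1 + x) / 2) := by
    rw [← hRa]; ring
  have hκ : 1 ≤ a * (1 + x) / 2 := by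
    have h1 : 2 * Real.exp (-(t * Real.log 3) / 2) ≤ 1 + x := by
      have hsq : x = Real.exp (-(t * Real.log 3) / 2) ^ 2 := by
        rw [hx, ← Real.exp_nat_mul]; congr 1; push_cast; ring
      rw [hsq]
      nlinarith [sq_nonneg (1 - Real.exp (-(t * Real.log 3) / 2))]
    have h2 : 1 ≤ a * Real.exp (-(t * Real.log 3) / 2) := by
      rw [ha, ← Real.exp_add, Real.one_le_exp_iff]
      have : Real.log 3 ≤ 2 * Real.log 2 := by
        rw [← Real.log_rpow (by norm_num)]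
        apply Real.log_le_log (by norm_num)
        norm_num
      nlinarith
    have h3 : a * (2 * Real.exp (-(t * Real.log 3) / 2)) ≤ a * (1 + x) := by gcongr
    nlinarith
  refine ⟨R * (a * (1 + x) / 2), by positivity, by rw [hρ]; exact hlt, ?_⟩
  intro w
  have hdom : ∀ r ∈ BadR θ w, (1 : ℝ) ≤ ∑ u ∈ Finset.range (w + 1), R ^ w * a ^ u * x ^ od u r := by
    intro r hr
    rw [mem_BadR] at hr
    obtain ⟨_, u, hu, hlt2⟩ := hr
    have h1 : (1 : ℝ) ≤ R ^ w * a ^ u * x ^ od u r := by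
      have hlog := Real.log_lt_log (by positivity) hlt2
      rw [Real.log_mul (by positivity) (by positivity), Real.log_pow, Real.log_pow,
        Real.log_pow] at hlog
      rw [hR, ha, hx, ← Real.exp_nat_mul, ← Real.exp_nat_mul, ← Real.exp_nat_mul, ← Real.exp_add,
        ← Real.exp_add, Real.one_le_exp_iff]
      nlinarith
    calc (1 : ℝ) ≤ R ^ w * a ^ u * x ^ od u r := h1
      _ ≤ ∑ u ∈ Finset.range (w + 1), R ^ w * a ^ u * x ^ od u r := by
        apply Finset.single_le_sum (f := fun u => R ^ w * a ^ u * x ^ od u r)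
        · intro i _; positivity
        · simp; omega
  calc ((BadR θ w).card : ℝ) = ∑ r ∈ BadR θ w, (1 : ℝ) := by simp
    _ ≤ ∑ r ∈ BadR θ w, ∑ u ∈ Finset.range (w + 1), R ^ w * a ^ u * x ^ od u r :=
        Finset.sum_le_sum hdom
    _ ≤ ∑ r ∈ Finset.range (2 ^ w), ∑ u ∈ Finset.range (w + 1), R ^ w * a ^ u * x ^ od u r := by
        apply Finset.sum_le_sum_of_subset_of_nonneg
        · intro r hr
          rw [mem_BadR] at hr
          exact Finset.mem_range.2 hr.1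
        intro i _ _
        apply Finset.sum_nonneg; intro j _; positivity
    _ = ∑ u ∈ Finset.range (w + 1), R ^ w * a ^ u * ∑ r ∈ Finset.range (2 ^ w), x ^ od u r := by
        rw [Finset.sum_comm]
        apply Finset.sum_congr rfl; intro u _
        rw [Finset.mul_sum]
    _ = ∑ u ∈ Finset.range (w + 1), R ^ w * (a * (1 + x) / 2) ^ u * 2 ^ w := by
        apply Finset.sum_congr rfl; intro u hu
        have hu' : u ≤ w := by simp at hu; omega
        rw [sum_od x u w hu']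
        have : (2 : ℝ) ^ w = 2 ^ u * 2 ^ (w - u) := by
          rw [← pow_add]; congr 1; omega
        rw [this, div_pow, mul_pow]
        field_simp
    _ ≤ ∑ u ∈ Finset.range (w + 1), R ^ w * (a * (1 + x) / 2) ^ w * 2 ^ w := by
        apply Finset.sum_le_sum; intro u hu
        have hu' : u ≤ w := by simp at hu; omega
        have := pow_le_pow_right₀ hκ hu'
        gcongr
    _ = (w + 1) * (R * (a * (1 + x) / 2)) ^ w * 2 ^ w := by
        rw [Finset.sum_const, Finset.card_range, nsmul_eq_mul, mul_pow]; push_cast; ring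

/-- If the residue is not bad, the orbit does not dip. -/
lemma not_badR_dip {θ : ℝ} {w n : ℕ} (h : n % 2 ^ w ∉ BadR θ w) {u : ℕ} (hu : u ≤ w) :
    (n : ℝ) * θ ^ w ≤ (T^[u] n : ℕ) := by
  have h1 : ¬ ((3 : ℝ) ^ od u (n % 2 ^ w) < θ ^ w * 2 ^ u) := by
    intro hlt
    apply h
    rw [mem_BadR]
    exact ⟨Nat.mod_lt _ (by positivity), u, hu, hlt⟩
  rw [od_mod hu] at h1
  push Not at h1
  have hk := key u n
  have hk' : (2 : ℝ) ^ u * (T^[u] n : ℕ) = 3 ^ od u n * n + Rm u n := by exact_mod_cast hk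
  have hR : (0 : ℝ) ≤ Rm u n := by positivity
  have h2u : (0 : ℝ) < 2 ^ u := by positivity
  have hn : (0 : ℝ) ≤ n := by positivity
  have h3 : (n : ℝ) * (θ ^ w * 2 ^ u) ≤ n * 3 ^ od u n := by gcongr
  have h4 : 2 ^ u * ((n : ℝ) * θ ^ w) ≤ 2 ^ u * ((T^[u] n : ℕ) : ℝ) := by
    rw [hk']
    nlinarith
  exact le_of_mul_le_mul_left h4 h2u

/-! ### First passages through bad residues -/

open Classical in
/-- The `q ≤ 2 ^ l` whose orbit first gets to `y` or below at time `t`, after `j` odd steps, with a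
residue modulo `2 ^ w` in `B`. -/
noncomputable def FtB (B : Finset ℕ) (s l w : ℕ) (y : ℝ) (t j : ℕ) : Finset ℕ :=
  (Finset.Icc 1 (2 ^ l)).filter (fun q => FP y (st s q) t ∧ od t (st s q) = j ∧
    (T^[t] (st s q)) % 2 ^ w ∈ B)

open Classical in
/-- The `q ≤ 2 ^ l` whose orbit first gets to `y` or below at a time in `[1, H]` with a residue
modulo `2 ^ w` in `B`. -/
noncomputable def FlB (B : Finset ℕ) (s l w H : ℕ) (y : ℝ) : Finset ℕ :=
  (Finset.Icc 1 (2 ^ l)).filter (fun q => ∃ t, 0 < t ∧ t ≤ H ∧ FP y (st s q) t ∧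
    (T^[t] (st s q)) % 2 ^ w ∈ B)

lemma FtB_card (B : Finset ℕ) (s l w H : ℕ) (y : ℝ) (t j : ℕ) (ht0 : 0 < t) (htH : t ≤ H)
    (hy1 : (2 : ℝ) ^ w ≤ y) (hyH : (4 : ℝ) * H / 3 ≤ y) (hy2 : y ≤ 2 ^ l) :
    ((FtB B s l w y t j).card : ℝ) ≤ (4 * H / 3 + 1) * 2 * 2 ^ l * (B.card / 2 ^ w) := by
  classical
  have hw : (0 : ℝ) < 2 ^ w := by positivity
  have hypos : 0 < y := lt_of_lt_of_le hw hy1
  have htH' : (t : ℝ) ≤ H := by exact_mod_cast htH
  set D : ℕ := ⌊(4 * t / 3 : ℝ) * 2 ^ l / y⌋₊ with hD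
  have hfib : ∀ b ∈ (FtB B s l w y t j).image (fun q => T^[t] (st s q)),
      ((FtB B s l w y t j).filter (fun q => T^[t] (st s q) = b)).card ≤ D + 1 := by
    intro b _
    apply card_le_of_diam
    intro q hq q' hq' hle
    simp only [FtB, Finset.mem_filter, Finset.mem_Icc] at hq hq'
    obtain ⟨⟨⟨hq1, hq2⟩, hFP, hod, _⟩, hTb⟩ := hq
    obtain ⟨⟨⟨hq1', hq2'⟩, hFP', hod', _⟩, hTb'⟩ := hq'
    have hrec : ∀ i < t, T^[t] (st s q) < T^[i] (st s q) := by
      intro i hi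
      have := lt_of_le_of_lt hFP.1 (hFP.2 i hi)
      exact_mod_cast this
    have hR := Rm_le t (st s q) hrec
    have hk := key t (st s q)
    have hk' := key t (st s q')
    rw [hTb, hod] at hk
    rw [hTb', hod'] at hk'
    have hs : (st s q : ℝ) = 3 ^ s * q - 1 := by
      have := st_eq s q hq1
      have h' : (st s q : ℝ) + 1 = 3 ^ s * q := by exact_mod_cast this
      linarith
    have hs' : (st s q' : ℝ) = 3 ^ s * q' - 1 := by
      have := st_eq s q' hq1'
      have h' : (st s q' : ℝ) + 1 = 3 ^ s * q' := by exact_mod_cast this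
      linarith
    have hkr : (2 : ℝ) ^ t * b = 3 ^ j * (3 ^ s * q - 1) + Rm t (st s q) := by
      rw [← hs]; exact_mod_cast hk
    have hkr' : (2 : ℝ) ^ t * b = 3 ^ j * (3 ^ s * q' - 1) + Rm t (st s q') := by
      rw [← hs']; exact_mod_cast hk'
    have hRr : (3 : ℝ) * Rm t (st s q) ≤ t * 2 ^ t := by exact_mod_cast hR
    have hRnn : (0 : ℝ) ≤ Rm t (st s q') := by positivity
    have hdiff : (3 : ℝ) ^ j * 3 ^ s * ((q' : ℝ) - q) ≤ t * 2 ^ t / 3 := by
      have : (3 : ℝ) ^ j * 3 ^ s * ((q' : ℝ) - q) = Rm t (st s q) - Rm t (st s q') := by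
        linear_combination hkr - hkr'
      rw [this]; linarith
    have hb : y / 2 < (b : ℝ) := by
      have := FP_half ht0 hFP
      rw [hTb] at this; exact this
    have hq2r : (q : ℝ) ≤ 2 ^ l := by exact_mod_cast hq2
    have h3j : (0 : ℝ) < 3 ^ j := by positivity
    have h3s : (0 : ℝ) < 3 ^ s := by positivity
    have h2t : (0 : ℝ) < 2 ^ t := by positivity
    have hup : (2 : ℝ) ^ t * (y / 4) ≤ 3 ^ j * 3 ^ s * 2 ^ l := by
      have h1 : (2 : ℝ) ^ t * b ≤ 3 ^ j * 3 ^ s * 2 ^ l + t * 2 ^ t / 3 := by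
        have : (3 : ℝ) ^ j * (3 ^ s * q - 1) ≤ 3 ^ j * 3 ^ s * 2 ^ l := by
          have : (3 : ℝ) ^ s * q ≤ 3 ^ s * 2 ^ l := by gcongr
          nlinarith
        linarith
      have h2 : y / 4 ≤ b - t / 3 := by linarith
      have h3 : (2 : ℝ) ^ t * (y / 4) ≤ 2 ^ t * (b - t / 3) := by gcongr
      nlinarith
    have hqq : (0 : ℝ) ≤ (q' : ℝ) - q := by
      have : (q : ℝ) ≤ q' := by exact_mod_cast hle
      linarith
    have hfin : ((q' : ℝ) - q) ≤ (4 * t / 3 : ℝ) * 2 ^ l / y := by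
      rw [le_div_iff₀ hypos]
      have h5 : ((q' : ℝ) - q) * (2 ^ t * (y / 4)) ≤ ((q' : ℝ) - q) * (3 ^ j * 3 ^ s * 2 ^ l) := by
        gcongr
      have h6 : ((q' : ℝ) - q) * (3 ^ j * 3 ^ s * 2 ^ l) ≤ t * 2 ^ t / 3 * 2 ^ l := by
        have : ((q' : ℝ) - q) * (3 ^ j * 3 ^ s * 2 ^ l) = (3 ^ j * 3 ^ s * ((q' : ℝ) - q)) * 2 ^ l := by
          ring
        rw [this]; gcongr
      have h7 : 2 ^ t * (((q' : ℝ) - q) * y) ≤ 2 ^ t * ((4 * t / 3 : ℝ) * 2 ^ l) := by nlinarith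
      exact le_of_mul_le_mul_left h7 h2t
    rw [hD]
    apply Nat.le_floor
    rw [Nat.cast_sub hle]
    exact hfin
  have h1 := Finset.card_le_mul_card_image (FtB B s l w y t j) (D + 1) hfib
  have himg : (FtB B s l w y t j).image (fun q => T^[t] (st s q)) ⊆
      (Finset.range (⌊y⌋₊ + 1)).filter (fun m => m % 2 ^ w ∈ B) := by
    intro m hm
    simp only [Finset.mem_image, FtB, Finset.mem_filter] at hm
    obtain ⟨q, ⟨_, hFP, _, hbad⟩, rfl⟩ := hm
    simp only [Finset.mem_filter, Finset.mem_range]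
    refine ⟨?_, hbad⟩
    have := Nat.le_floor hFP.1
    omega
  have h2 := (Finset.card_le_card himg).trans (card_mod_le ⌊y⌋₊ (2 ^ w) (by positivity) B)
  have h3 : ((FtB B s l w y t j).card : ℝ) ≤ (D + 1) * (((⌊y⌋₊ / 2 ^ w : ℕ) : ℝ) + 1) * B.card := by
    have : (FtB B s l w y t j).card ≤ (D + 1) * ((⌊y⌋₊ / 2 ^ w + 1) * B.card) :=
      h1.trans (Nat.mul_le_mul_left _ h2)
    have h' : ((FtB B s l w y t j).card : ℝ) ≤ ((D + 1) * ((⌊y⌋₊ / 2 ^ w + 1) * B.card) : ℕ) := by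
      exact_mod_cast this
    refine h'.trans (le_of_eq ?_)
    push_cast; ring
  have hDle : (D : ℝ) + 1 ≤ (4 * H / 3 + 1) * (2 ^ l / y) := by
    have h4 : (D : ℝ) ≤ (4 * t / 3 : ℝ) * 2 ^ l / y := by
      rw [hD]; apply Nat.floor_le; positivity
    have h5 : (1 : ℝ) ≤ 2 ^ l / y := by rwa [one_le_div hypos]
    have h6 : (4 * t / 3 : ℝ) * 2 ^ l / y ≤ (4 * H / 3 : ℝ) * (2 ^ l / y) := by
      rw [mul_div_assoc]; gcongr
    nlinarith
  have hfl : (((⌊y⌋₊ / 2 ^ w : ℕ) : ℝ) + 1) ≤ 2 * y / 2 ^ w := by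
    have h4 : ((⌊y⌋₊ / 2 ^ w : ℕ) : ℝ) ≤ (⌊y⌋₊ : ℝ) / ((2 ^ w : ℕ) : ℝ) := Nat.cast_div_le
    have h5 : (⌊y⌋₊ : ℝ) ≤ y := Nat.floor_le hypos.le
    have h6 : (1 : ℝ) ≤ y / 2 ^ w := by rwa [one_le_div hw]
    have h7 : (⌊y⌋₊ : ℝ) / ((2 ^ w : ℕ) : ℝ) ≤ y / 2 ^ w := by
      push_cast; gcongr
    have : 2 * y / 2 ^ w = y / 2 ^ w + y / 2 ^ w := by ring
    linarith
  calc ((FtB B s l w y t j).card : ℝ)
      ≤ (D + 1) * (((⌊y⌋₊ / 2 ^ w : ℕ) : ℝ) + 1) * B.card := h3
    _ ≤ ((4 * H / 3 + 1) * (2 ^ l / y)) * (2 * y / 2 ^ w) * B.card := by gcongr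
    _ = (4 * H / 3 + 1) * 2 * 2 ^ l * (B.card / 2 ^ w) := by
        field_simp

lemma FlB_card (B : Finset ℕ) (s l w H : ℕ) (y : ℝ)
    (hy1 : (2 : ℝ) ^ w ≤ y) (hyH : (4 : ℝ) * H / 3 ≤ y) (hy2 : y ≤ 2 ^ l) :
    ((FlB B s l w H y).card : ℝ) ≤
      (H + 1) ^ 2 * ((4 * H / 3 + 1) * 2 * 2 ^ l * (B.card / 2 ^ w)) := by
  classical
  have hsub : FlB B s l w H y ⊆ (Finset.Icc 1 H ×ˢ Finset.range (H + 1)).biUnion
      (fun p => FtB B s l w y p.1 p.2) := by
    intro q hq
    simp only [FlB, Finset.mem_filter] at hq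
    obtain ⟨hq1, t, ht0, htH, hFP, hbad⟩ := hq
    simp only [Finset.mem_biUnion, Finset.mem_product, Finset.mem_Icc, Finset.mem_range, Prod.exists]
    refine ⟨t, od t (st s q), ⟨⟨ht0, htH⟩, ?_⟩, ?_⟩
    · have := od_le t (st s q); omega
    · simp only [FtB, Finset.mem_filter]
      exact ⟨hq1, hFP, trivial, hbad⟩
  have hcard := (Finset.card_le_card hsub).trans Finset.card_biUnion_le
  have hcard' : ((FlB B s l w H y).card : ℝ) ≤
      ∑ p ∈ (Finset.Icc 1 H ×ˢ Finset.range (H + 1)), ((FtB B s l w y p.1 p.2).card : ℝ) := by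
    exact_mod_cast hcard
  refine hcard'.trans ?_
  have hb : ∀ p ∈ (Finset.Icc 1 H ×ˢ Finset.range (H + 1)), ((FtB B s l w y p.1 p.2).card : ℝ) ≤
      (4 * H / 3 + 1) * 2 * 2 ^ l * (B.card / 2 ^ w) := by
    intro p hp
    simp only [Finset.mem_product, Finset.mem_Icc] at hp
    exact FtB_card B s l w H y p.1 p.2 (by omega) (by omega) hy1 hyH hy2
  refine (Finset.sum_le_card_nsmul _ _ _ hb).trans ?_
  rw [nsmul_eq_mul, Finset.card_product, Nat.card_Icc, Finset.card_range]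
  have h0 : (0 : ℝ) ≤ (4 * H / 3 + 1) * 2 * 2 ^ l * (B.card / 2 ^ w) := by positivity
  apply mul_le_mul_of_nonneg_right _ h0
  push_cast
  have : (0 : ℝ) ≤ H := by positivity
  nlinarith

open Classical in
/-- The `q` with `2 ^ (l - 1) ≤ q < 2 ^ l` whose start value has a residue modulo `2 ^ l` in `B`. -/
noncomputable def IlB (B : Finset ℕ) (s l : ℕ) : Finset ℕ :=
  (Finset.Ico (2 ^ (l - 1)) (2 ^ l)).filter (fun q => (st s q) % 2 ^ l ∈ B)

lemma IlB_card (B : Finset ℕ) (s l : ℕ) : (IlB B s l).card ≤ B.card := by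
  classical
  apply Finset.card_le_card_of_injOn (fun q => (st s q) % 2 ^ l)
  · intro q hq
    simp only [IlB, Finset.coe_filter, Set.mem_ofPred_eq] at hq
    exact hq.2
  · intro a ha b hb hab
    simp only [IlB, Finset.coe_filter, Set.mem_ofPred_eq, Finset.mem_Ico] at ha hb
    have hp : 0 < 2 ^ (l - 1) := by positivity
    have ha1 : 1 ≤ a := by omega
    have hb1 : 1 ≤ b := by omega
    have h1 : st s a ≡ st s b [MOD 2 ^ l] := hab
    have h2 : st s a + 1 ≡ st s b + 1 [MOD 2 ^ l] := Nat.ModEq.add_right 1 h1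
    rw [st_eq s a ha1, st_eq s b hb1] at h2
    have hc : Nat.Coprime (2 ^ l) (3 ^ s) := Nat.Coprime.pow _ _ (by norm_num)
    have h3 : a ≡ b [MOD 2 ^ l] := Nat.ModEq.cancel_left_of_coprime hc h2
    exact Nat.ModEq.eq_of_lt_of_lt h3 (by omega) (by omega)

/-! ### Levels and good start values -/

/-- The levels. -/
noncomputable def level (θ L : ℝ) (w i : ℕ) : ℝ := L ^ w * (θ ^ w / 2) ^ i

lemma level_succ (θ L : ℝ) (w i : ℕ) : level θ L w (i + 1) = level θ L w i * θ ^ w / 2 := by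
  unfold level; rw [pow_succ]; ring

lemma level_pos {θ L : ℝ} (h0 : 0 < θ) (hL : 0 < L) (w i : ℕ) : 0 < level θ L w i := by
  unfold level; positivity

lemma level_succ_lt {θ L : ℝ} (h0 : 0 < θ) (h1 : θ ≤ 1) (hL : 0 < L) (w i : ℕ) :
    level θ L w (i + 1) < level θ L w i := by
  rw [level_succ]
  have h1 : θ ^ w ≤ 1 := pow_le_one₀ h0.le h1
  have h2 := level_pos h0 hL w i
  nlinarith

lemma level_anti {θ L : ℝ} (h0 : 0 < θ) (h1 : θ ≤ 1) (hL : 0 < L) (w : ℕ) :
    Antitone (level θ L w) :=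
  antitone_nat_of_succ_le (fun i => (level_succ_lt h0 h1 hL w i).le)

open Classical in
/-- The good `q`: no bad residue at the start and at the first passages. -/
noncomputable def goodSet (θ L : ℝ) (a b K w : ℕ) : Finset ℕ :=
  (Finset.Ico (2 ^ (b * w - 1)) (2 ^ (b * w))).filter (fun q =>
    (st (a * w) q) % 2 ^ (b * w) ∉ BadR θ (b * w) ∧
      ∀ i < K, ∀ t, 0 < t → t ≤ (b + K) * w → FP (level θ L w i) (st (a * w) q) t →
        (T^[t] (st (a * w) q)) % 2 ^ w ∉ BadR θ w)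

lemma good_orbit {θ L : ℝ} (h0 : 0 < θ) (h1 : θ ≤ 1) (hL : 0 < L) (a b K w q : ℕ)
    (c3 : L ^ w < (3 ^ (a * w) * 2 ^ (b * w - 1) - 1) * θ ^ (b * w))
    (hq : q ∈ goodSet θ L a b K w) :
    ∀ i ≤ K, ∀ t ≤ b * w + i * w, level θ L w i < ((T^[t] (st (a * w) q) : ℕ) : ℝ) := by
  classical
  simp only [goodSet, Finset.mem_filter, Finset.mem_Ico] at hq
  obtain ⟨⟨hq1, _⟩, hI, hF⟩ := hq
  set n := st (a * w) q with hn
  intro i
  induction i with
  | zero =>
    intro _ t ht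
    have h1 := not_badR_dip hI (u := t) (by omega)
    have hq1' : 1 ≤ q := le_trans Nat.one_le_two_pow hq1
    have h2 : (n : ℝ) = 3 ^ (a * w) * q - 1 := by
      have := st_eq (a * w) q hq1'
      have h' : (st (a * w) q : ℝ) + 1 = 3 ^ (a * w) * q := by exact_mod_cast this
      rw [hn]; linarith
    have h3 : (2 : ℝ) ^ (b * w - 1) ≤ q := by exact_mod_cast hq1
    have h4 : (3 : ℝ) ^ (a * w) * 2 ^ (b * w - 1) - 1 ≤ n := by
      rw [h2]
      have : (3 : ℝ) ^ (a * w) * 2 ^ (b * w - 1) ≤ 3 ^ (a * w) * q := by gcongr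
      linarith
    have h5 : ((3 : ℝ) ^ (a * w) * 2 ^ (b * w - 1) - 1) * θ ^ (b * w) ≤ n * θ ^ (b * w) := by
      gcongr
    have e0 : level θ L w 0 = L ^ w := by simp [level]
    rw [e0]; linarith
  | succ i ih =>
    intro hi t ht
    have ih' := ih (by omega)
    by_cases hall : ∀ t' ≤ t, level θ L w i < ((T^[t'] n : ℕ) : ℝ)
    · exact (level_succ_lt h0 h1 hL w i).trans (hall t le_rfl)
    · push Not at hall
      have hex : ∃ t', ((T^[t'] n : ℕ) : ℝ) ≤ level θ L w i := by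
        obtain ⟨t', _, h⟩ := hall; exact ⟨t', h⟩
      obtain ⟨t', ht', hle'⟩ := hall
      set τ := Nat.find hex with hτ
      have hτle : τ ≤ t := (Nat.find_min' hex hle').trans ht'
      have hτspec : ((T^[τ] n : ℕ) : ℝ) ≤ level θ L w i := Nat.find_spec hex
      have hτmin : ∀ j < τ, level θ L w i < ((T^[j] n : ℕ) : ℝ) := by
        intro j hj
        have := Nat.find_min hex hj
        push Not at this; exact this
      have hτgt : b * w + i * w < τ := by
        by_contra hc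
        push Not at hc
        have := ih' τ hc
        linarith
      have ht2 : t ≤ b * w + i * w + w := by
        have : (i + 1) * w = i * w + w := by ring
        omega
      have hiw : i * w + w ≤ K * w := by
        have : (i + 1) * w ≤ K * w := Nat.mul_le_mul_right _ hi
        have e : (i + 1) * w = i * w + w := by ring
        omega
      have hbK : (b + K) * w = b * w + K * w := by ring
      have hbad := hF i (by omega) τ (by omega) (by omega) ⟨hτspec, hτmin⟩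
      obtain ⟨u, rfl⟩ := Nat.exists_eq_add_of_le hτle
      have hu : u ≤ w := by omega
      have h1 := not_badR_dip hbad hu
      have h2 : T^[τ + u] n = T^[u] (T^[τ] n) := by
        rw [add_comm, Function.iterate_add_apply]
      rw [h2]
      have h3 := FP_half (y := level θ L w i) (n := n) (t := τ) (by omega) ⟨hτspec, hτmin⟩
      rw [level_succ]
      have h4 : (0 : ℝ) < θ ^ w := by positivity
      have h5 : level θ L w i / 2 * θ ^ w < ((T^[τ] n : ℕ) : ℝ) * θ ^ w := by gcongr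
      calc level θ L w i * θ ^ w / 2 = level θ L w i / 2 * θ ^ w := by ring
        _ < ((T^[τ] n : ℕ) : ℝ) * θ ^ w := h5
        _ ≤ _ := h1

lemma good_card {θ L : ℝ} (h0 : 0 < θ) (h1 : θ ≤ 1) (hL : 0 < L) (a b K w : ℕ) (hb : 1 ≤ b * w)
    (c0 : L ^ w ≤ 2 ^ (b * w))
    (c1 : (2 : ℝ) ^ w ≤ level θ L w K)
    (c2 : (4 : ℝ) * (((b + K) * w : ℕ) : ℝ) / 3 ≤ 2 ^ w)
    (c4 : ((BadR θ (b * w)).card : ℝ) + K * (((((b + K) * w : ℕ) : ℝ) + 1) ^ 2 *
      ((4 * (((b + K) * w : ℕ) : ℝ) / 3 + 1) * 2 * 2 ^ (b * w) * ((BadR θ w).card / 2 ^ w)))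
        ≤ 2 ^ (b * w) / 4) :
    (2 : ℝ) ^ (b * w) / 4 ≤ (goodSet θ L a b K w).card := by
  classical
  have hsub : Finset.Ico (2 ^ (b * w - 1)) (2 ^ (b * w)) ⊆ goodSet θ L a b K w ∪
      (IlB (BadR θ (b * w)) (a * w) (b * w) ∪ (Finset.range K).biUnion
        (fun i => FlB (BadR θ w) (a * w) (b * w) w ((b + K) * w) (level θ L w i))) := by
    intro q hq
    have hq' := hq
    rw [Finset.mem_Ico] at hq'
    rw [Finset.mem_union]
    by_cases hg : q ∈ goodSet θ L a b K w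
    · exact Or.inl hg
    right
    rw [Finset.mem_union]
    by_cases hI : (st (a * w) q) % 2 ^ (b * w) ∈ BadR θ (b * w)
    · left
      simp only [IlB, Finset.mem_filter]
      exact ⟨hq, hI⟩
    · right
      simp only [goodSet, Finset.mem_filter, not_and, not_forall] at hg
      obtain ⟨i, hi, t, ht0, htH, hFP, hbad⟩ := hg hq hI
      rw [Finset.mem_biUnion]
      refine ⟨i, Finset.mem_range.mpr hi, ?_⟩
      simp only [FlB, Finset.mem_filter, Finset.mem_Icc]
      have : 0 < 2 ^ (b * w - 1) := by positivity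
      exact ⟨⟨by omega, by omega⟩, t, ht0, htH, hFP, not_not.1 hbad⟩
  have h1' := (Finset.card_le_card hsub).trans ((Finset.card_union_le _ _).trans
    (Nat.add_le_add_left (Finset.card_union_le _ _) _))
  have h2 : ((Finset.range K).biUnion
        (fun i => FlB (BadR θ w) (a * w) (b * w) w ((b + K) * w) (level θ L w i))).card ≤
      ∑ i ∈ Finset.range K, (FlB (BadR θ w) (a * w) (b * w) w ((b + K) * w) (level θ L w i)).card :=
    Finset.card_biUnion_le
  have h3 : (Finset.Ico (2 ^ (b * w - 1)) (2 ^ (b * w))).card = 2 ^ (b * w - 1) := by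
    rw [Nat.card_Ico]
    have : 2 ^ (b * w) = 2 * 2 ^ (b * w - 1) := by
      rw [← pow_succ']; congr 1; omega
    omega
  rw [h3] at h1'
  have h4 := h1'.trans (Nat.add_le_add_left (Nat.add_le_add (IlB_card _ _ _) h2) _)
  have h4' : (2 : ℝ) ^ (b * w - 1) ≤ (goodSet θ L a b K w).card + ((BadR θ (b * w)).card +
      ∑ i ∈ Finset.range K,
        ((FlB (BadR θ w) (a * w) (b * w) w ((b + K) * w) (level θ L w i)).card : ℝ)) := by
    exact_mod_cast h4
  have h5 : ∀ i ∈ Finset.range K,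
      ((FlB (BadR θ w) (a * w) (b * w) w ((b + K) * w) (level θ L w i)).card : ℝ) ≤
      ((((b + K) * w : ℕ) : ℝ) + 1) ^ 2 *
      ((4 * (((b + K) * w : ℕ) : ℝ) / 3 + 1) * 2 * 2 ^ (b * w) * ((BadR θ w).card / 2 ^ w)) := by
    intro i hi
    have hi' : i ≤ K := (Finset.mem_range.mp hi).le
    have hl : level θ L w K ≤ level θ L w i := level_anti h0 h1 hL w hi'
    have hl0 : level θ L w i ≤ level θ L w 0 := level_anti h0 h1 hL w (Nat.zero_le i)
    have e0 : level θ L w 0 = L ^ w := by simp [level]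
    apply FlB_card
    · linarith
    · linarith
    · linarith
  have h6 := Finset.sum_le_card_nsmul _ _ _ h5
  rw [Finset.card_range, nsmul_eq_mul] at h6
  have h7 : (2 : ℝ) ^ (b * w) = 2 * 2 ^ (b * w - 1) := by
    rw [← pow_succ']; congr 1; omega
  linarith

/-! ### The conditions hold for large `w` -/

lemma eventually_good {θ L : ℝ} (h0 : 0 < θ) (h1 : θ ≤ 1) (hθ : (2 * θ) ^ 2 < 3) (a b K : ℕ)
    (hb : 1 ≤ b) (hL0 : 0 < L) (hL2 : L ≤ 2 ^ b) (hL3 : L < 3 ^ a * 2 ^ b * θ ^ b)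
    (hLK : 2 < L * θ ^ K) :
    ∀ᶠ w : ℕ in Filter.atTop, 1 ≤ w ∧ (2 : ℝ) ^ (b * w) / 4 ≤ (goodSet θ L a b K w).card ∧
      ∀ q ∈ goodSet θ L a b K w, ∀ t ≤ b * w + K * w, 1 < T^[t] (st (a * w) q) := by
  obtain ⟨ρ, hρ0, hρ1, hbad⟩ := badR_card θ h0 hθ
  have hL1 : 1 ≤ L := by
    have : θ ^ K ≤ 1 := pow_le_one₀ h0.le h1
    nlinarith
  set G : ℝ := 3 ^ a * 2 ^ b * θ ^ b with hG
  set C : ℝ := (b + 1) + K * ((b + K + 1) ^ 2 * (2 * (b + K + 1)) * 2 * 2) with hC
  have hCpos : 0 < C := by positivity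
  have e1 : ∀ᶠ w : ℕ in Filter.atTop, (2 : ℝ) ^ K ≤ (L * θ ^ K / 2) ^ w :=
    (tendsto_pow_atTop_atTop_of_one_lt (r := L * θ ^ K / 2) (by linarith)).eventually_ge_atTop _
  have e2 : ∀ᶠ w : ℕ in Filter.atTop, (w : ℝ) ^ 1 * (1 / 2) ^ w < 3 / (4 * (b + K)) :=
    (tendsto_pow_const_mul_const_pow_of_abs_lt_one 1 (r := (1 / 2 : ℝ))
      (by rw [abs_of_pos] <;> norm_num)).eventually_lt_const (by positivity)
  have e3 : ∀ᶠ w : ℕ in Filter.atTop, (5 : ℝ) ≤ (G / L) ^ w :=
    (tendsto_pow_atTop_atTop_of_one_lt (r := G / L) (by rw [one_lt_div hL0]; exact hL3)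
      ).eventually_ge_atTop _
  have e4 : ∀ᶠ w : ℕ in Filter.atTop, (w : ℝ) ^ 4 * ρ ^ w < 1 / (4 * C) :=
    (tendsto_pow_const_mul_const_pow_of_abs_lt_one 4 (r := ρ)
      (by rw [abs_of_pos hρ0]; exact hρ1)).eventually_lt_const (by positivity)
  filter_upwards [e1, e2, e3, e4, Filter.eventually_ge_atTop 1] with w f1 f2 f3 f4 hw
  have hwr : (1 : ℝ) ≤ w := by exact_mod_cast hw
  have hbr : (1 : ℝ) ≤ b := by exact_mod_cast hb
  have hKr : (0 : ℝ) ≤ K := by positivity
  have hlevK : level θ L w K = (L * θ ^ K) ^ w / 2 ^ K := by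
    unfold level
    rw [div_pow, mul_pow, ← pow_mul, ← pow_mul, mul_comm w K]
    ring
  have c1 : (2 : ℝ) ^ w ≤ level θ L w K := by
    rw [hlevK]
    have e : (L * θ ^ K) ^ w = 2 ^ w * (L * θ ^ K / 2) ^ w := by
      rw [← mul_pow]; congr 1; ring
    rw [e, le_div_iff₀ (by positivity)]
    gcongr
  have c0 : L ^ w ≤ 2 ^ (b * w) := by
    rw [pow_mul]
    exact pow_le_pow_left₀ hL0.le hL2 w
  have c2 : (4 : ℝ) * (((b + K) * w : ℕ) : ℝ) / 3 ≤ 2 ^ w := by
    have h7 : (0 : ℝ) < 2 ^ w := by positivity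
    have h8 : (0 : ℝ) < 4 * (b + K) := by positivity
    rw [pow_one, one_div, inv_pow, ← div_eq_mul_inv, div_lt_div_iff₀ h7 h8] at f2
    push_cast
    linarith
  have c3 : L ^ w < (3 ^ (a * w) * 2 ^ (b * w - 1) - 1) * θ ^ (b * w) := by
    obtain ⟨m, hm⟩ : ∃ m, b * w = m + 1 := ⟨b * w - 1, by
      have : 1 ≤ b * w := Nat.mul_pos hb hw
      omega⟩
    have hm' : b * w - 1 = m := by omega
    have hGw : G ^ w = 2 * (3 ^ (a * w) * 2 ^ m * θ ^ (b * w)) := by
      have h9 : (2 : ℝ) ^ (b * w) = 2 * 2 ^ m := by rw [hm, pow_succ]; ring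
      rw [hG, mul_pow, mul_pow, ← pow_mul, ← pow_mul, ← pow_mul, h9]
      ring
    rw [hm']
    have h6 : θ ^ (b * w) ≤ 1 := pow_le_one₀ h0.le h1
    have hLw : 1 ≤ L ^ w := one_le_pow₀ hL1
    rw [div_pow, le_div_iff₀ (by positivity)] at f3
    rw [sub_mul, one_mul]
    linarith
  have c4 : ((BadR θ (b * w)).card : ℝ) + K * (((((b + K) * w : ℕ) : ℝ) + 1) ^ 2 *
      ((4 * (((b + K) * w : ℕ) : ℝ) / 3 + 1) * 2 * 2 ^ (b * w) * ((BadR θ w).card / 2 ^ w)))
        ≤ 2 ^ (b * w) / 4 := by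
    have hb1 := hbad (b * w)
    have hb2 := hbad w
    have hρw : ρ ^ (b * w) ≤ ρ ^ w := pow_le_pow_of_le_one hρ0.le hρ1.le
      (Nat.le_mul_of_pos_left w hb)
    have hρp : 0 < ρ ^ w := by positivity
    have hb3 : ((BadR θ w).card : ℝ) / 2 ^ w ≤ (2 * w) * ρ ^ w := by
      rw [div_le_iff₀ (by positivity)]
      refine hb2.trans ?_
      gcongr
      linarith
    have hw4 : (w : ℝ) ≤ w ^ 4 := by
      calc (w : ℝ) = w ^ 1 := by ring
        _ ≤ w ^ 4 := pow_le_pow_right₀ hwr (by norm_num)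
    have hP : (0 : ℝ) < 2 ^ (b * w) := by positivity
    have i1 : ((BadR θ (b * w)).card : ℝ) ≤ (b + 1) * (w ^ 4 * ρ ^ w) * 2 ^ (b * w) := by
      refine hb1.trans ?_
      have : (((b * w : ℕ) : ℝ) + 1) ≤ (b + 1) * w ^ 4 := by push_cast; nlinarith
      calc (((b * w : ℕ) : ℝ) + 1) * ρ ^ (b * w) * 2 ^ (b * w)
          ≤ ((b + 1) * w ^ 4) * ρ ^ w * 2 ^ (b * w) := by gcongr
        _ = _ := by ring
    have i2 : ((((b + K) * w : ℕ) : ℝ) + 1) ^ 2 *
      ((4 * (((b + K) * w : ℕ) : ℝ) / 3 + 1) * 2 * 2 ^ (b * w) * ((BadR θ w).card / 2 ^ w)) ≤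
        ((b + K + 1) ^ 2 * (2 * (b + K + 1)) * 2 * 2) * (w ^ 4 * ρ ^ w) * 2 ^ (b * w) := by
      have j1 : ((((b + K) * w : ℕ) : ℝ) + 1) ≤ (b + K + 1) * w := by push_cast; linarith
      have j2 : (4 * (((b + K) * w : ℕ) : ℝ) / 3 + 1) ≤ (2 * (b + K + 1)) * w := by
        push_cast; nlinarith
      have hX : (0 : ℝ) ≤ (BadR θ w).card / 2 ^ w := by positivity
      calc ((((b + K) * w : ℕ) : ℝ) + 1) ^ 2 *
          ((4 * (((b + K) * w : ℕ) : ℝ) / 3 + 1) * 2 * 2 ^ (b * w) * ((BadR θ w).card / 2 ^ w))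
          ≤ ((b + K + 1) * w) ^ 2 *
          (((2 * (b + K + 1)) * w) * 2 * 2 ^ (b * w) * ((2 * w) * ρ ^ w)) := by gcongr
        _ = _ := by ring
    have i3 : C * (w ^ 4 * ρ ^ w) ≤ 1 / 4 := by
      calc C * (w ^ 4 * ρ ^ w) ≤ C * (1 / (4 * C)) := by gcongr
        _ = 1 / 4 := by field_simp
    have i4 : C * (w ^ 4 * ρ ^ w) * 2 ^ (b * w) ≤ 1 / 4 * 2 ^ (b * w) := by gcongr
    calc ((BadR θ (b * w)).card : ℝ) + K * (((((b + K) * w : ℕ) : ℝ) + 1) ^ 2 *
      ((4 * (((b + K) * w : ℕ) : ℝ) / 3 + 1) * 2 * 2 ^ (b * w) * ((BadR θ w).card / 2 ^ w)))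
        ≤ (b + 1) * (w ^ 4 * ρ ^ w) * 2 ^ (b * w) +
          K * (((b + K + 1) ^ 2 * (2 * (b + K + 1)) * 2 * 2) * (w ^ 4 * ρ ^ w) * 2 ^ (b * w)) := by
          gcongr
      _ = C * (w ^ 4 * ρ ^ w) * 2 ^ (b * w) := by rw [hC]; ring
      _ ≤ 1 / 4 * 2 ^ (b * w) := i4
      _ = 2 ^ (b * w) / 4 := by ring
  refine ⟨hw, good_card h0 h1 hL0 a b K w (Nat.mul_pos hb hw) c0 c1 c2 c4, ?_⟩
  intro q hq t ht
  have h2 := good_orbit h0 h1 hL0 a b K w q c3 hq K le_rfl t ht
  have h3 : (1 : ℝ) ≤ 2 ^ w := one_le_pow₀ (by norm_num)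
  have h4 : (1 : ℝ) < ((T^[t] (st (a * w) q) : ℕ) : ℝ) := by linarith
  exact_mod_cast h4

/-! ### The 3x+1 map on the integers and the total stopping time -/

/-- The accelerated 3x+1 map on the integers. -/
def collatz (n : ℤ) : ℤ := if n % 2 = 0 then n / 2 else (3 * n + 1) / 2

/-- The total stopping time: the infimum of all `k ≥ 0` with `T ^ (k) n = 1`, which is `⊤` if there
is no such `k`. -/
noncomputable def totalStoppingTime (n : ℤ) : EReal :=
  ⨅ k ∈ {k : ℕ | collatz^[k] n = 1}, ((k : ℝ) : EReal)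

open Classical in
/-- The positive integers `n ≤ x` with total stopping time at least `c log n`. -/
noncomputable def longSet (c : ℝ) (x : ℕ) : Finset ℕ :=
  (Finset.Icc 1 x).filter (fun n => ((c * Real.log n : ℝ) : EReal) ≤ totalStoppingTime n)

lemma collatz_cast (m : ℕ) : collatz (m : ℤ) = (T m : ℕ) := by
  unfold collatz T
  rcases Nat.mod_two_eq_zero_or_one m with h | h
  · have h' : (m : ℤ) % 2 = 0 := by omega
    rw [if_pos h, if_pos h']
    push_cast
    rfl
  · have h' : ¬ ((m : ℤ) % 2 = 0) := by omega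
    have h'' : ¬ (m % 2 = 0) := by omega
    rw [if_neg h', if_neg h'']
    push_cast
    rfl

lemma collatz_iterate (k m : ℕ) : collatz^[k] (m : ℤ) = ((T^[k] m : ℕ) : ℤ) := by
  induction k generalizing m with
  | zero => rfl
  | succ k ih => rw [Function.iterate_succ_apply, Function.iterate_succ_apply, collatz_cast, ih]

lemma le_totalStoppingTime {y : ℝ} {n : ℕ} (h : ∀ k : ℕ, T^[k] n = 1 → y ≤ k) :
    (y : EReal) ≤ totalStoppingTime n := by
  unfold totalStoppingTime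
  refine le_iInf₂ fun k hk => ?_
  rw [Set.mem_ofPred_eq, collatz_iterate] at hk
  exact EReal.coe_le_coe_iff.2 (h k (by exact_mod_cast hk))

/-! ### Counting -/

lemma start_long {θ L : ℝ} (a b K w q : ℕ) (c : ℝ) (hbw : 3 ≤ b * w)
    (hq : q ∈ goodSet θ L a b K w)
    (hgood : ∀ t ≤ b * w + K * w, 1 < T^[t] (st (a * w) q))
    (hc : c * ((a + b) * Real.log 2) ≤ a + b + K) :
    1 ≤ 2 ^ (a * w) * q - 1 ∧ 2 ^ (a * w) * q - 1 ≤ 2 ^ ((a + b) * w) ∧
      ((c * Real.log ((2 ^ (a * w) * q - 1 : ℕ) : ℝ) : ℝ) : EReal) ≤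
        totalStoppingTime ((2 ^ (a * w) * q - 1 : ℕ) : ℤ) := by
  classical
  simp only [goodSet, Finset.mem_filter, Finset.mem_Ico] at hq
  obtain ⟨⟨hq1, hq2⟩, _, _⟩ := hq
  have hq4 : 4 ≤ q := by
    have : 2 ^ 2 ≤ 2 ^ (b * w - 1) := Nat.pow_le_pow_right (by norm_num) (by omega)
    omega
  have h2s : 1 ≤ 2 ^ (a * w) := Nat.one_le_two_pow
  have hbig : 1 * 4 ≤ 2 ^ (a * w) * q := Nat.mul_le_mul h2s hq4
  have hle : 2 ^ (a * w) * q ≤ 2 ^ ((a + b) * w) := by
    have h1 : 2 ^ (a * w) * q ≤ 2 ^ (a * w) * 2 ^ (b * w) := Nat.mul_le_mul_left _ hq2.le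
    have h2 : 2 ^ (a * w) * 2 ^ (b * w) = 2 ^ ((a + b) * w) := by
      rw [← pow_add]; congr 1; ring
    omega
  refine ⟨by omega, by omega, ?_⟩
  apply le_totalStoppingTime
  intro k hk
  have hkbig : (a + b + K) * w < k := by
    by_contra hcon
    push Not at hcon
    rcases le_or_gt k (a * w) with hks | hks
    · rw [climb (a * w) q k (by omega) hks] at hk
      have h3 : 1 * 1 * 4 ≤ 3 ^ k * 2 ^ (a * w - k) * q :=
        Nat.mul_le_mul (Nat.mul_le_mul (Nat.one_le_pow _ _ (by norm_num)) Nat.one_le_two_pow) hq4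
      omega
    · obtain ⟨t, rfl⟩ := Nat.exists_eq_add_of_le hks.le
      have h1 : T^[a * w + t] (2 ^ (a * w) * q - 1) = T^[t] (st (a * w) q) := by
        rw [add_comm, Function.iterate_add_apply, climb (a * w) q (a * w) (by omega) le_rfl]
        simp [st]
      rw [h1] at hk
      have e : (a + b + K) * w = a * w + b * w + K * w := by ring
      have h2 := hgood t (by omega)
      omega
  have hn1 : (1 : ℝ) ≤ ((2 ^ (a * w) * q - 1 : ℕ) : ℝ) := by
    have : 1 ≤ 2 ^ (a * w) * q - 1 := by omega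
    exact_mod_cast this
  have hlog0 : 0 ≤ Real.log ((2 ^ (a * w) * q - 1 : ℕ) : ℝ) := Real.log_nonneg hn1
  have hlog1 : Real.log ((2 ^ (a * w) * q - 1 : ℕ) : ℝ) ≤ w * ((a + b) * Real.log 2) := by
    have h1 : ((2 ^ (a * w) * q - 1 : ℕ) : ℝ) ≤ 2 ^ ((a + b) * w) := by
      have : 2 ^ (a * w) * q - 1 ≤ 2 ^ ((a + b) * w) := by omega
      exact_mod_cast this
    calc Real.log ((2 ^ (a * w) * q - 1 : ℕ) : ℝ) ≤ Real.log (2 ^ ((a + b) * w)) :=
          Real.log_le_log (by linarith) h1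
      _ = w * ((a + b) * Real.log 2) := by rw [Real.log_pow]; push_cast; ring
  have hkr : (w : ℝ) * (a + b + K) ≤ k := by
    have : ((a + b + K) * w : ℕ) ≤ (k : ℝ) := by exact_mod_cast hkbig.le
    push_cast at this
    linarith
  have hwr : (0 : ℝ) ≤ w := by positivity
  rcases le_or_gt c 0 with hc0 | hc0
  · have : c * Real.log ((2 ^ (a * w) * q - 1 : ℕ) : ℝ) ≤ 0 :=
      mul_nonpos_of_nonpos_of_nonneg hc0 hlog0
    have hk0 : (0 : ℝ) ≤ k := by positivity
    linarith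
  · calc c * Real.log ((2 ^ (a * w) * q - 1 : ℕ) : ℝ) ≤ c * (w * ((a + b) * Real.log 2)) := by
          gcongr
      _ = w * (c * ((a + b) * Real.log 2)) := by ring
      _ ≤ w * (a + b + K) := by gcongr
      _ ≤ k := hkr

lemma count_of_params {θ L : ℝ} (h0 : 0 < θ) (h1 : θ ≤ 1) (hθ : (2 * θ) ^ 2 < 3) (a b K : ℕ)
    (hb : 1 ≤ b) (hL0 : 0 < L) (hL2 : L ≤ 2 ^ b) (hL3 : L < 3 ^ a * 2 ^ b * θ ^ b)
    (hLK : 2 < L * θ ^ K) (c η : ℝ) (hc : c * ((a + b) * Real.log 2) ≤ a + b + K)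
    (hη : η * (a + b) < b) :
    ∀ᶠ x : ℕ in Filter.atTop, (x : ℝ) ^ η ≤ (longSet c x).card := by
  classical
  set η' : ℝ := max η 0 with hη'
  have hη'0 : 0 ≤ η' := le_max_right _ _
  have hbr : (1 : ℝ) ≤ b := by exact_mod_cast hb
  have har : (0 : ℝ) ≤ a := by positivity
  have hη2 : η' * (a + b) < b := by
    rcases max_cases η 0 with ⟨h, _⟩ | ⟨h, _⟩
    · rw [hη', h]; exact hη
    · rw [hη', h]; linarith
  -- eventually in `w`
  have hw1 := eventually_good h0 h1 hθ a b K hb hL0 hL2 hL3 hLK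
  have hw2 : ∀ᶠ w : ℕ in Filter.atTop, (η' * (a + b) + 2) / (b - η' * (a + b)) ≤ (w : ℝ) :=
    tendsto_natCast_atTop_atTop.eventually_ge_atTop _
  have hw : ∀ᶠ w : ℕ in Filter.atTop, (1 ≤ w ∧ (2 : ℝ) ^ (b * w) / 4 ≤ (goodSet θ L a b K w).card ∧
      ∀ q ∈ goodSet θ L a b K w, ∀ t ≤ b * w + K * w, 1 < T^[t] (st (a * w) q)) ∧
      (η' * (a + b) + 2) / (b - η' * (a + b)) ≤ (w : ℝ) ∧ 3 ≤ w :=
    hw1.and (hw2.and (Filter.eventually_ge_atTop 3))
  have hab : 0 < a + b := by omega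
  have htend : Filter.Tendsto (fun x : ℕ => Nat.log 2 x / (a + b)) Filter.atTop Filter.atTop := by
    rw [Filter.tendsto_atTop]
    intro m
    filter_upwards [Filter.eventually_ge_atTop (2 ^ (m * (a + b)))] with x hx
    rw [Nat.le_div_iff_mul_le hab]
    exact Nat.le_log_of_pow_le (by norm_num) hx
  filter_upwards [htend.eventually hw, Filter.eventually_ge_atTop 1] with x hx hx1
  set w := Nat.log 2 x / (a + b) with hwdef
  obtain ⟨⟨hw1, hcard, hgood⟩, hww, hw3⟩ := hx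
  have hbw : 3 ≤ b * w := le_trans hw3 (Nat.le_mul_of_pos_left w hb)
  -- the injection
  have hpow : 2 ^ ((a + b) * w) ≤ x := by
    have h2 : (a + b) * w ≤ Nat.log 2 x := Nat.mul_div_le _ _
    exact (Nat.pow_le_pow_right (by norm_num) h2).trans (Nat.pow_log_le_self 2 (by omega))
  have hsub : (goodSet θ L a b K w).image (fun q => 2 ^ (a * w) * q - 1) ⊆ longSet c x := by
    intro n hn
    rw [Finset.mem_image] at hn
    obtain ⟨q, hq, rfl⟩ := hn
    obtain ⟨g1, g2, g3⟩ := start_long a b K w q c hbw hq (hgood q hq) hc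
    simp only [longSet, Finset.mem_filter, Finset.mem_Icc]
    exact ⟨⟨g1, g2.trans hpow⟩, g3⟩
  have hinj : Set.InjOn (fun q => 2 ^ (a * w) * q - 1) (goodSet θ L a b K w : Set ℕ) := by
    intro q hq q' hq' h
    simp only [goodSet, Finset.coe_filter, Set.mem_ofPred_eq, Finset.mem_Ico] at hq hq'
    have hp : 0 < 2 ^ (a * w) := by positivity
    have hp' : 0 < 2 ^ (b * w - 1) := by positivity
    have e1 : 0 < 2 ^ (a * w) * q := Nat.mul_pos hp (by omega)
    have e2 : 0 < 2 ^ (a * w) * q' := Nat.mul_pos hp (by omega)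
    have h' : 2 ^ (a * w) * q - 1 = 2 ^ (a * w) * q' - 1 := h
    exact Nat.eq_of_mul_eq_mul_left hp (by omega)
  have hcard2 : ((goodSet θ L a b K w).card : ℝ) ≤ (longSet c x).card := by
    rw [← Finset.card_image_of_injOn hinj]
    exact_mod_cast Finset.card_le_card hsub
  -- the size
  have hxr : (1 : ℝ) ≤ x := by exact_mod_cast hx1
  have hx2 : (x : ℝ) ≤ 2 ^ ((a + b) * (w + 1)) := by
    have h2 : x < 2 ^ (Nat.log 2 x + 1) := Nat.lt_pow_succ_log_self (by norm_num) x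
    have h3 : Nat.log 2 x + 1 ≤ (a + b) * (w + 1) := by
      have := Nat.lt_mul_div_succ (Nat.log 2 x) hab
      rw [← hwdef] at this
      omega
    have h4 := h2.le.trans (Nat.pow_le_pow_right (by norm_num) h3)
    exact_mod_cast h4
  have hmain : (x : ℝ) ^ η ≤ 2 ^ (b * w) / 4 := by
    calc (x : ℝ) ^ η ≤ (x : ℝ) ^ η' := Real.rpow_le_rpow_of_exponent_le hxr (le_max_left _ _)
      _ ≤ (2 ^ ((a + b) * (w + 1)) : ℝ) ^ η' := Real.rpow_le_rpow (by linarith) hx2 hη'0
      _ = (2 : ℝ) ^ (((a : ℝ) + b) * (w + 1) * η') := by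
          rw [← Real.rpow_natCast, ← Real.rpow_mul (by norm_num)]
          push_cast
          rfl
      _ ≤ (2 : ℝ) ^ ((b : ℝ) * w - 2) := by
          apply Real.rpow_le_rpow_of_exponent_le (by norm_num)
          rw [div_le_iff₀ (by linarith)] at hww
          nlinarith
      _ = 2 ^ (b * w) / 4 := by
          rw [Real.rpow_sub (by norm_num)]
          have e1 : (2 : ℝ) ^ ((b : ℝ) * w) = 2 ^ (b * w) := by
            rw [← Real.rpow_natCast]
            push_cast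
            rfl
          have e2 : (2 : ℝ) ^ (2 : ℝ) = 4 := by
            rw [show (2 : ℝ) = ((2 : ℕ) : ℝ) by norm_num, Real.rpow_natCast]
            norm_num
          rw [e1, e2]
  linarith

/-! ### Choice of the parameters -/

/-- `h = (1/2) log (4/3)`, the average decrease of `log` per step. -/
noncomputable def hh : ℝ := 1 / 2 * Real.log (4 / 3)

/-- `μ = 1 / h = 6.952...`. -/
noncomputable def mu : ℝ := ((1 / 2 : ℝ) * Real.log (4 / 3))⁻¹

/-- `C(α) = μ (α (h + log 3) + log 2) / ((1 + α) log 2)`. -/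
noncomputable def CC (α : ℝ) : ℝ :=
  mu * (α * (hh + Real.log 3) + Real.log 2) / ((1 + α) * Real.log 2)

lemma hh_pos : 0 < hh := by
  unfold hh
  have := Real.log_pos (show (1 : ℝ) < 4 / 3 by norm_num)
  linarith

lemma mu_eq : mu = hh⁻¹ := rfl

lemma mu_pos : 0 < mu := by rw [mu_eq]; exact inv_pos.2 hh_pos

lemma hh_lt : hh < Real.log 2 := by
  unfold hh
  have h1 : Real.log (4 / 3) < Real.log 2 := Real.log_lt_log (by norm_num) (by norm_num)
  have h2 : 0 < Real.log 2 := Real.log_pos (by norm_num)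
  linarith

lemma params (α c η : ℝ) (hα0 : 0 ≤ α) (hα1 : α ≤ hh / Real.log 3) (hc : c < CC α)
    (hη : η < 1 / (1 + α)) : ∃ (θ L : ℝ) (a b K : ℕ), 0 < θ ∧ θ ≤ 1 ∧ (2 * θ) ^ 2 < 3 ∧ 1 ≤ b ∧
      0 < L ∧ L ≤ 2 ^ b ∧ L < 3 ^ a * 2 ^ b * θ ^ b ∧ 2 < L * θ ^ K ∧
      c * ((a + b) * Real.log 2) ≤ a + b + K ∧ η * (a + b) < b := by
  have hlog2 : 0 < Real.log 2 := Real.log_pos (by norm_num)
  have hlog3 : 0 < Real.log 3 := Real.log_pos (by norm_num)
  have hh0 := hh_pos
  have hα : 0 < 1 + α := by linarith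
  -- the step `h'`
  have hφ : 0 < α * (hh + Real.log 3) + Real.log 2 - c * Real.log 2 * (1 + α) * hh := by
    unfold CC at hc
    rw [lt_div_iff₀ (by positivity), mu_eq, inv_mul_eq_div, lt_div_iff₀ hh0] at hc
    linarith
  have hcont : Continuous fun y : ℝ =>
      α * (y + Real.log 3) + Real.log 2 - c * Real.log 2 * (1 + α) * y := by fun_prop
  obtain ⟨h', hφ', hlt, hgt⟩ : ∃ y : ℝ,
      0 < α * (y + Real.log 3) + Real.log 2 - c * Real.log 2 * (1 + α) * y ∧ y < Real.log 2 ∧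
        hh < y := by
    have e1 : ∀ᶠ y in nhdsWithin hh (Set.Ioi hh),
        0 < α * (y + Real.log 3) + Real.log 2 - c * Real.log 2 * (1 + α) * y :=
      (hcont.continuousAt.eventually (lt_mem_nhds hφ)).filter_mono nhdsWithin_le_nhds
    have e2 : ∀ᶠ y in nhdsWithin hh (Set.Ioi hh), y < Real.log 2 :=
      (gt_mem_nhds hh_lt).filter_mono nhdsWithin_le_nhds
    have e3 : ∀ᶠ y in nhdsWithin hh (Set.Ioi hh), hh < y := self_mem_nhdsWithin
    exact (e1.and (e2.and e3)).exists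
  have h'0 : 0 < h' := hh0.trans hgt
  set φ : ℝ := α * (h' + Real.log 3) + Real.log 2 - c * Real.log 2 * (1 + α) * h' with hφdef
  set M : ℝ := |1 + Real.log 3 / h' - c * Real.log 2| with hM
  have hM0 : 0 ≤ M := abs_nonneg _
  -- the size of `b`
  have e1 : ∀ᶠ b : ℕ in Filter.atTop,
      (M + 2 * Real.log 2 / h' + 1) / (φ / h') ≤ (b : ℝ) :=
    tendsto_natCast_atTop_atTop.eventually_ge_atTop _
  have e2 : ∀ᶠ b : ℕ in Filter.atTop, (2 * Real.log 2 + 1) / (Real.log 2 - h') ≤ (b : ℝ) :=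
    tendsto_natCast_atTop_atTop.eventually_ge_atTop _
  obtain ⟨b, hb1, hb2, hb⟩ := (e1.and (e2.and (Filter.eventually_ge_atTop 1))).exists
  rw [div_le_iff₀ (by positivity)] at hb1
  rw [div_le_iff₀ (by linarith)] at hb2
  have hbr : (1 : ℝ) ≤ b := by exact_mod_cast hb
  set a : ℕ := ⌊α * b⌋₊ with ha
  have ha1 : (a : ℝ) ≤ α * b := Nat.floor_le (by positivity)
  have ha2 : α * b < a + 1 := Nat.lt_floor_add_one _
  have ha0 : (0 : ℝ) ≤ a := by positivity
  set θ : ℝ := Real.exp (-h') with hθ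
  have hθ0 : 0 < θ := Real.exp_pos _
  have hθ1 : θ ≤ 1 := by rw [hθ, Real.exp_le_one_iff]; linarith
  set lL : ℝ := a * Real.log 3 + b * Real.log 2 - b * h' - Real.log 2 with hlL
  have hG : (3 : ℝ) ^ a * 2 ^ b * θ ^ b = 2 * Real.exp lL := by
    have e3 : (3 : ℝ) ^ a = Real.exp (a * Real.log 3) := by
      rw [Real.exp_nat_mul, Real.exp_log (by norm_num)]
    have e4 : (2 : ℝ) ^ b = Real.exp (b * Real.log 2) := by
      rw [Real.exp_nat_mul, Real.exp_log (by norm_num)]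
    have e5 : θ ^ b = Real.exp (-(b * h')) := by
      rw [hθ, ← Real.exp_nat_mul]; congr 1; ring
    have e6 : (2 : ℝ) = Real.exp (Real.log 2) := (Real.exp_log (by norm_num)).symm
    rw [e3, e4, e5, ← Real.exp_add, ← Real.exp_add]
    conv_rhs => rw [e6]
    rw [← Real.exp_add, hlL]
    congr 1
    ring
  set X : ℝ := (lL - Real.log 2) / h' with hX
  have hX0 : 0 < X := by
    rw [hX]
    apply div_pos _ h'0
    rw [hlL]
    have : 0 ≤ (a : ℝ) * Real.log 3 := by positivity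
    nlinarith
  have hceil : 1 ≤ ⌈X⌉₊ := Nat.one_le_ceil_iff.2 hX0
  set K : ℕ := ⌈X⌉₊ - 1 with hK
  have hKr : (K : ℝ) = (⌈X⌉₊ : ℝ) - 1 := by rw [hK, Nat.cast_sub hceil]; norm_num
  have hK1 : (K : ℝ) < X := by
    rw [hKr]
    have := Nat.ceil_lt_add_one hX0.le
    linarith
  have hK2 : X - 1 ≤ (K : ℝ) := by
    rw [hKr]
    have := Nat.le_ceil X
    linarith
  refine ⟨θ, Real.exp lL, a, b, K, hθ0, hθ1, ?_, hb, Real.exp_pos _, ?_, ?_, ?_, ?_, ?_⟩
  · have h1 : θ ^ 2 < 3 / 4 := by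
      have e3 : θ ^ 2 = Real.exp (-(2 * h')) := by
        rw [hθ, ← Real.exp_nat_mul]; congr 1; push_cast; ring
      have e4 : (3 : ℝ) / 4 = Real.exp (-(2 * hh)) := by
        unfold hh
        rw [show -(2 * (1 / 2 * Real.log (4 / 3))) = Real.log ((4 / 3 : ℝ)⁻¹) by
          rw [Real.log_inv]; ring, Real.exp_log (by norm_num)]
        norm_num
      rw [e3, e4, Real.exp_lt_exp]
      linarith
    nlinarith
  · have e4 : (2 : ℝ) ^ b = Real.exp (b * Real.log 2) := by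
      rw [Real.exp_nat_mul, Real.exp_log (by norm_num)]
    rw [e4, Real.exp_le_exp, hlL]
    have h1 : (a : ℝ) * Real.log 3 ≤ b * h' := by
      have h2 : α * Real.log 3 ≤ hh := by rwa [le_div_iff₀ hlog3] at hα1
      calc (a : ℝ) * Real.log 3 ≤ α * b * Real.log 3 := by gcongr
        _ = b * (α * Real.log 3) := by ring
        _ ≤ b * h' := by
          apply mul_le_mul_of_nonneg_left _ (by positivity)
          linarith
    linarith
  · rw [hG]
    have := Real.exp_pos lL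
    linarith
  · have e3 : Real.exp lL * θ ^ K = Real.exp (lL - K * h') := by
      rw [hθ, ← Real.exp_nat_mul, ← Real.exp_add]; congr 1; ring
    rw [e3]
    have h1 : (K : ℝ) * h' < lL - Real.log 2 := by
      rw [hX, lt_div_iff₀ h'0] at hK1
      exact hK1
    calc (2 : ℝ) = Real.exp (Real.log 2) := (Real.exp_log (by norm_num)).symm
      _ < Real.exp (lL - K * h') := by
        rw [Real.exp_lt_exp]
        linarith
  · -- the total time
    have hXe : X = (a * Real.log 3 + b * Real.log 2 - 2 * Real.log 2) / h' - b := by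
      rw [hX, hlL]; field_simp; ring
    have h1 : (a : ℝ) + (a * Real.log 3 + b * Real.log 2 - 2 * Real.log 2) / h' - 1 ≤
        a + b + K := by linarith
    refine le_trans ?_ h1
    have h2 : φ / h' = α * (1 + Real.log 3 / h' - c * Real.log 2) +
        (Real.log 2 / h' - c * Real.log 2) := by
      rw [hφdef]; field_simp; ring
    have h3 : (α * b - a) * (1 + Real.log 3 / h' - c * Real.log 2) ≤ M := by
      calc (α * b - a) * (1 + Real.log 3 / h' - c * Real.log 2)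
          ≤ |(α * b - a) * (1 + Real.log 3 / h' - c * Real.log 2)| := le_abs_self _
        _ = |α * b - a| * M := by rw [abs_mul]
        _ ≤ 1 * M := by
          apply mul_le_mul_of_nonneg_right _ hM0
          rw [abs_le]; constructor <;> linarith
        _ = M := one_mul _
    have h4 : (a : ℝ) + (a * Real.log 3 + b * Real.log 2 - 2 * Real.log 2) / h' - 1 -
        c * ((a + b) * Real.log 2) = b * (φ / h') -
          (α * b - a) * (1 + Real.log 3 / h' - c * Real.log 2) - 2 * Real.log 2 / h' - 1 := by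
      rw [h2]; field_simp; ring
    linarith
  · rcases le_or_gt η 0 with h | h
    · have : η * (a + b) ≤ 0 := mul_nonpos_of_nonpos_of_nonneg h (by positivity)
      linarith
    · have h1 : η * (1 + α) < 1 := by rwa [lt_div_iff₀ hα] at hη
      calc η * (a + b) ≤ η * (α * b + b) := by gcongr
        _ = (η * (1 + α)) * b := by ring
        _ < 1 * b := by
          apply mul_lt_mul_of_pos_right h1
          linarith
        _ = b := one_mul _

theorem main (α c η : ℝ) (hα0 : 0 ≤ α) (hα1 : α ≤ hh / Real.log 3) (hc : c < CC α)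
    (hη : η < 1 / (1 + α)) : ∀ᶠ x : ℕ in Filter.atTop, (x : ℝ) ^ η ≤ (longSet c x).card := by
  obtain ⟨θ, L, a, b, K, h1, h2, h3, h4, h5, h6, h7, h8, h9, h10⟩ := params α c η hα0 hα1 hc hη
  exact count_of_params h1 h2 h3 a b K h4 h5 h6 h7 h8 c η h9 h10

/-! ### Numerical values -/

lemma hh_eq : hh = Real.log 2 - Real.log 3 / 2 := by
  unfold hh
  rw [Real.log_div (by norm_num) (by norm_num),
    show (4 : ℝ) = 2 ^ 2 by norm_num, Real.log_pow]
  push_cast
  ring

lemma log_three_gt : 84 / 53 * Real.log 2 < Real.log 3 := by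
  have h : Real.log ((2 : ℝ) ^ 84) < Real.log ((3 : ℝ) ^ 53) :=
    Real.log_lt_log (by positivity) (by norm_num)
  rw [Real.log_pow, Real.log_pow] at h
  push_cast at h
  linarith

lemma mu_lt_CC {α : ℝ} (h : 0 < α) : mu < CC α := by
  have hlog2 : 0 < Real.log 2 := Real.log_pos (by norm_num)
  have h3 := log_three_gt
  unfold CC
  rw [lt_div_iff₀ (by positivity)]
  have h4 : (1 + α) * Real.log 2 < α * (hh + Real.log 3) + Real.log 2 := by
    have h5 : Real.log 2 < hh + Real.log 3 := by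
      have := hh_pos
      linarith
    nlinarith
  exact mul_lt_mul_of_pos_left h4 mu_pos

lemma num_CC : 7.58 < CC (hh / Real.log 3) := by
  have hlog2 : 0 < Real.log 2 := Real.log_pos (by norm_num)
  have hlog3 : 0 < Real.log 3 := Real.log_pos (by norm_num)
  have h3 := log_three_gt
  have hh0 := hh_pos
  have hx := Real.log_two_lt_d9
  unfold CC
  rw [lt_div_iff₀ (by positivity), mu_eq, inv_mul_eq_div, lt_div_iff₀ hh0]
  have e1 : hh / Real.log 3 * (hh + Real.log 3) + Real.log 2 =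
      (hh * (hh + Real.log 3) + Real.log 2 * Real.log 3) / Real.log 3 := by field_simp
  have e2 : 7.58 * ((1 + hh / Real.log 3) * Real.log 2) * hh =
      (7.58 * ((Real.log 3 + hh) * Real.log 2) * hh) / Real.log 3 := by field_simp
  rw [e1, e2]
  apply div_lt_div_of_pos_right _ hlog3
  have hhe := hh_eq
  set x := Real.log 2
  set y := Real.log 3
  rw [hhe]
  have hy2 : (84 / 53 * x) ^ 2 ≤ y ^ 2 := by gcongr
  have hD : x ^ 2 - y ^ 2 / 4 ≤ (1 - (42 / 53) ^ 2) * x ^ 2 := by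
    have : (84 / 53 * x) ^ 2 = 4 * ((42 / 53) ^ 2 * x ^ 2) := by ring
    linarith
  have h5 : 0 < 7.58 * x - 1 := by
    have := Real.log_two_gt_d9
    linarith
  have h6 : (7.58 * x - 1) * (x ^ 2 - y ^ 2 / 4) ≤
      (7.58 * x - 1) * ((1 - (42 / 53) ^ 2) * x ^ 2) := by gcongr
  have h7 : (7.58 * x - 1) * ((1 - (42 / 53) ^ 2) * x ^ 2) < 84 / 53 * x ^ 2 := by
    have h8 : (7.58 * x - 1) * (1 - (42 / 53) ^ 2) < 84 / 53 := by
      norm_num at hx ⊢
      linarith
    calc (7.58 * x - 1) * ((1 - (42 / 53) ^ 2) * x ^ 2)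
        = ((7.58 * x - 1) * (1 - (42 / 53) ^ 2)) * x ^ 2 := by ring
      _ < 84 / 53 * x ^ 2 := mul_lt_mul_of_pos_right h8 (by positivity)
  have h9 : 84 / 53 * x ^ 2 ≤ x * y := by nlinarith
  nlinarith

lemma num_exp : (0.884 : ℝ) < 1 / (1 + hh / Real.log 3) := by
  have hlog2 : 0 < Real.log 2 := Real.log_pos (by norm_num)
  have hlog3 : 0 < Real.log 3 := Real.log_pos (by norm_num)
  have h3 := log_three_gt
  have hh0 := hh_pos
  have hhe := hh_eq
  rw [lt_div_iff₀ (by positivity)]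
  have e : 0.884 * (1 + hh / Real.log 3) = 0.884 * (Real.log 3 + hh) / Real.log 3 := by
    field_simp
  rw [e, div_lt_one hlog3, hhe]
  norm_num at *
  linarith

/-- The values at the right end `α = h / log 3`: the constant is larger than `7.58` and the exponent
is larger than `0.884`; the constant is larger than `μ` for every `α > 0`. -/
theorem values : 7.58 < CC (hh / Real.log 3) ∧ (0.884 : ℝ) < 1 / (1 + hh / Real.log 3) ∧
    ∀ α : ℝ, 0 < α → mu < CC α :=
  ⟨num_CC, num_exp, fun _ h => mu_lt_CC h⟩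

/-- **Long total stopping times for the 3x+1 map.** Here `T n = n / 2` for even `n` and
`T n = (3 n + 1) / 2` for odd `n`, `σ∞(n)` is the infimum of all `k` with `T ^ (k) n = 1` (`⊤` if there
is none), `h = (1/2) log (4/3)`, `μ = 1 / h` and
`C(α) = μ (α (h + log 3) + log 2) / ((1 + α) log 2)`.

There are infinitely many positive integers `n` with `σ∞(n) ≥ μ log n`; more precisely, for
`0 ≤ α ≤ h / log 3`, `c < C(α)` and `η < 1 / (1 + α)`, all large `x` satisfy
`#{1 ≤ n ≤ x : σ∞(n) ≥ c log n} ≥ x ^ η`. (One has `C(0) = μ` and `C(h / log 3) = 7.5899...`.) -/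
theorem result :
    {n : ℕ | 0 < n ∧ ((mu * Real.log n : ℝ) : EReal) ≤ totalStoppingTime n}.Infinite ∧
    ∀ α c η : ℝ, 0 ≤ α → α ≤ hh / Real.log 3 → c < CC α → η < 1 / (1 + α) →
      ∀ᶠ x : ℕ in Filter.atTop, (x : ℝ) ^ η ≤ (longSet c x).card := by
  classical
  have hlog3 : 0 < Real.log 3 := Real.log_pos (by norm_num)
  have hpos : 0 < hh / Real.log 3 := div_pos hh_pos hlog3
  refine ⟨?_, fun α c η h1 h2 h3 h4 => main α c η h1 h2 h3 h4⟩
  intro hfin
  -- a finite set has bounded counting function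
  have h1 : ∀ x : ℕ, (longSet mu x).card ≤ hfin.toFinset.card := by
    intro x
    apply Finset.card_le_card
    intro n hn
    simp only [longSet, Finset.mem_filter, Finset.mem_Icc] at hn
    rw [Set.Finite.mem_toFinset]
    exact ⟨by omega, hn.2⟩
  have h2 := main (hh / Real.log 3) mu (1 / 2) hpos.le le_rfl (mu_lt_CC hpos)
    (lt_trans (by norm_num) num_exp)
  have h3 : Filter.Tendsto (fun x : ℕ => (x : ℝ) ^ (1 / 2 : ℝ)) Filter.atTop Filter.atTop :=
    (tendsto_rpow_atTop (by norm_num)).comp tendsto_natCast_atTop_atTop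
  obtain ⟨x, hx1, hx2⟩ := (h2.and (h3.eventually_gt_atTop (hfin.toFinset.card : ℝ))).exists
  have h4 : ((longSet mu x).card : ℝ) ≤ hfin.toFinset.card := by exact_mod_cast h1 x
  linarith

end Pool.Agent.Results.MP_e701bf_nt.LongStoppingTimes
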